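import Mathlib

set_option autoImplicit false

namespace Pool.Agent.H.MP_436b38_co

open Finset Equiv Classical

lemma hockey (a n S : ℕ) (hS : n = 0 → S = 0) (m : ℕ) : ∀ L, L + m = a →
    ∑ x ∈ Ico L a, (a + n - 1 - x - S).choose n = (m + n - S).choose (n + 1) := by
  induction m with
  | zero =>
    intro L h
    rw [show L = a by omega, Ico_self, sum_empty, Nat.choose_eq_zero_of_lt (by omega)]
  | succ m ih =>
    intro L h
    rw [sum_eq_sum_Ico_succ_bot (by omega), ih (L + 1) (by omega), show a + n - 1 - L - S = m + n - S by omega]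
    by_cases g : S ≤ m + n
    · rw [show m + 1 + n - S = m + n - S + 1 by omega, Nat.choose_succ_succ']
    · rw [Nat.choose_eq_zero_of_lt (by omega), Nat.choose_eq_zero_of_lt (by omega),
        Nat.choose_eq_zero_of_lt (by omega)]

def ok (a : ℕ) : (n : ℕ) → (ℕ → ℕ) → ℕ → (Fin n → Fin a) → Prop
  | 0, _, _, _ => True
  | n + 1, D, lo, g => lo + D 0 ≤ g 0 ∧ ok a n (fun i => D (i + 1)) (g 0) (Fin.tail g)

lemma ok_card (a n : ℕ) : ∀ (D : ℕ → ℕ) (lo : ℕ), (univ.filter (ok a n D lo)).card =
    (a + n - 1 - lo - ∑ i ∈ range n, D i).choose n := by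
  induction n with
  | zero => intro D lo; simp [ok]
  | succ n ih =>
    intro D lo
    rw [card_filter, ← (Fin.consEquiv fun _ => Fin a).sum_comp, Fintype.sum_prod_type]
    have e : ∀ x : Fin a, ∑ g : Fin n → Fin a, (if ok a (n + 1) D lo ((Fin.consEquiv fun _ => Fin a) (x, g))
        then 1 else 0) = if lo + D 0 ≤ x then (a + n - 1 - x - ∑ i ∈ range n, D (i + 1)).choose n else 0 := by
      intro x
      simp only [Fin.consEquiv_apply, ok, Fin.cons_zero]
      split_ifs with h
      · rw [← ih, card_filter]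
        exact sum_congr rfl fun g _ => if_congr (and_iff_right h) rfl rfl
      · exact sum_eq_zero fun g _ => if_neg fun g => h g.1
    rw [sum_congr rfl fun x _ => e x, Fin.sum_univ_eq_sum_range
      (fun x => if lo + D 0 ≤ x then (a + n - 1 - x - ∑ i ∈ range n, D (i + 1)).choose n else 0), ← sum_filter,
      sum_range_succ']
    have : (range a).filter (fun x => lo + D 0 ≤ x) = Ico (lo + D 0) a := by
      ext x; simp only [mem_filter, mem_range, mem_Ico]; omega
    rw [this]
    by_cases g : lo + D 0 ≤ a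
    · rw [hockey a n _ (fun h => by simp [h]) (a - (lo + D 0)) _ (by omega)]
      congr 1; omega
    · rw [Ico_eq_empty (by omega), sum_empty, Nat.choose_eq_zero_of_lt (by omega)]

lemma ok_iff (a n : ℕ) : ∀ (D : ℕ → ℕ) (lo : ℕ) (g : Fin (n + 1) → Fin a), ok a (n + 1) D lo g ↔
    lo + D 0 ≤ g 0 ∧ ∀ i : Fin n, (g i.castSucc : ℕ) + D (i + 1) ≤ g i.succ := by
  induction n with
  | zero => intro D lo g; simp [ok]
  | succ n ih =>
    intro D lo g
    rw [ok, ih, Fin.forall_fin_succ]
    rfl

variable {n : ℕ}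

def des (π : Perm (Fin n)) : ℕ :=
  (Finset.univ.filter (fun k : Fin n => ∃ l : Fin n, l.val = k.val + 1 ∧ π l < π k)).card

lemma des_eq (π : Perm (Fin (n + 1))) :
    des π = ∑ i : Fin n, if π i.succ < π i.castSucc then 1 else 0 := by
  rw [des, card_filter, Fin.sum_univ_castSucc, if_neg, add_zero]
  · refine sum_congr rfl fun i _ => if_congr ⟨?_, fun h => ⟨i.succ, rfl, h⟩⟩ rfl rfl
    rintro ⟨l, h1, h2⟩
    rwa [show i.succ = l from Fin.ext h1.symm]
  · rintro ⟨l, h, _⟩
    have := l.2
    simp at h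
    omega

lemma des_le (π : Perm (Fin (n + 1))) : des π ≤ n := by
  rw [des_eq]
  refine (sum_le_card_nsmul _ _ 1 fun i _ => by split_ifs <;> simp).trans (by simp)

lemma sort_card (a : ℕ) (π : Perm (Fin (n + 1))) :
    (univ.filter (fun f : Fin (n + 1) → Fin a => Tuple.sort f = π)).card = (a + n - des π).choose (n + 1) := by
  let D : ℕ → ℕ := fun i => Nat.casesOn i 0 fun i =>
    if h : i < n then (if π (⟨i, h⟩ : Fin n).succ < π (⟨i, h⟩ : Fin n).castSucc then 1 else 0) else 0
  have e : ∑ i ∈ range (n + 1), D i = des π := by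
    rw [sum_range_succ', des_eq, ← Fin.sum_univ_eq_sum_range (fun i => D (i + 1))]
    refine (add_zero _).trans (sum_congr rfl fun (i : Fin n) _ => ?_)
    exact dif_pos i.2
  have := ok_card a (n + 1) D 0
  rw [e, show a + (n + 1) - 1 - 0 - des π = a + n - des π by omega] at this
  rw [← this]
  refine card_bij' (fun f _ => f ∘ π) (fun g _ => g ∘ π.symm) ?_ ?_ (fun f _ => by ext; simp)
    (fun f _ => by ext; simp)
  · intro f hf
    obtain ⟨h1, h2⟩ := Tuple.eq_sort_iff.1 (mem_filter.1 hf).2.symm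
    refine mem_filter.2 ⟨mem_univ _, (ok_iff _ _ _ _ _).2 ⟨by simp [D], fun i => ?_⟩⟩
    have g1 : f (π i.castSucc) ≤ f (π i.succ) := h1 i.castSucc_lt_succ.le
    simp only [D, i.2, dif_pos, Function.comp]
    split_ifs with g
    · exact lt_of_le_of_ne g1 fun e => lt_asymm g (h2 _ _ i.castSucc_lt_succ e)
    · exact g1
  · intro g hg
    have h := ((ok_iff _ _ _ _ _).1 (mem_filter.1 hg).2).2
    have h1 : StrictMono fun i => toLex (g i, π i) := by
      refine Fin.strictMono_iff_lt_succ.2 fun i => Prod.Lex.toLex_lt_toLex.2 ?_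
      have := h i
      simp only [D, i.2, dif_pos] at this
      split_ifs at this with g1
      · exact Or.inl this
      · rcases (show g i.castSucc ≤ g i.succ from this).lt_or_eq with g2 | g2
        · exact Or.inl g2
        · exact Or.inr ⟨g2, lt_of_le_of_ne (not_lt.1 g1) fun e => i.castSucc_lt_succ.ne (π.injective e)⟩
    refine mem_filter.2 ⟨mem_univ _, (Tuple.eq_sort_iff.2 ⟨fun i j hij => ?_, fun i j hij e => ?_⟩).symm⟩
    · simp only [Function.comp, symm_apply_apply]
      exact (Prod.Lex.toLex_le_toLex.1 (h1.monotone hij)).elim le_of_lt fun h => h.1.le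
    · simp only [Function.comp, symm_apply_apply] at e
      exact (Prod.Lex.toLex_lt_toLex.1 (h1 hij)).elim (fun h => absurd e h.ne) fun h => h.2

lemma sort_iso {α β : Type*} [LinearOrder α] [LinearOrder β] (e : α ≃o β) (f : Fin n → α) :
    Tuple.sort (e ∘ f) = Tuple.sort f := by
  obtain ⟨h1, h2⟩ := (Tuple.eq_sort_iff (f := f)).1 rfl
  exact (Tuple.eq_sort_iff.2 ⟨e.monotone.comp h1, fun i j hij g => h2 i j hij (e.injective g)⟩).symm

lemma sort_card' (α : Type) [LinearOrder α] [Fintype α] (π : Perm (Fin (n + 1))) :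
    (univ.filter (fun f : Fin (n + 1) → α => Tuple.sort f = π)).card =
      (Fintype.card α + n - des π).choose (n + 1) := by
  rw [← sort_card]
  let e := monoEquivOfFin α rfl
  refine card_bij' (fun f _ => e.symm ∘ f) (fun g _ => e ∘ g) ?_ ?_ (fun f _ => by ext; simp)
    (fun f _ => by ext; simp)
  · intro f hf
    exact mem_filter.2 ⟨mem_univ _, by rw [sort_iso, (mem_filter.1 hf).2]⟩
  · intro f hf
    exact mem_filter.2 ⟨mem_univ _, by rw [sort_iso, (mem_filter.1 hf).2]⟩

lemma radix {α β : Type*} [LinearOrder α] [LinearOrder β] (f : Fin n → α) (g : Fin n → β) :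
    Tuple.sort (fun i => toLex (g ((Tuple.sort f).symm i), f i)) = Tuple.sort f * Tuple.sort g := by
  obtain ⟨h1, h2⟩ := (Tuple.eq_sort_iff (f := f)).1 rfl
  obtain ⟨h3, h4⟩ := (Tuple.eq_sort_iff (f := g)).1 rfl
  refine (Tuple.eq_sort_iff.2 ⟨fun i j hij => ?_, fun i j hij e => ?_⟩).symm
  · simp only [Function.comp, Perm.mul_apply, symm_apply_apply]
    rcases hij.lt_or_eq with hij | rfl
    · refine Prod.Lex.toLex_le_toLex.2 ?_
      rcases (h3 hij.le).lt_or_eq with g1 | g1
      · exact Or.inl g1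
      · exact Or.inr ⟨g1, h1 (h4 i j hij g1).le⟩
    · exact le_rfl
  · simp only [Perm.mul_apply, symm_apply_apply, toLex_inj, Prod.mk.injEq] at e
    exact h2 _ _ (h4 i j hij e.1) e.2

theorem shuffle (a b : ℕ) (τ : Perm (Fin (n + 1))) :
    ∑ π : Perm (Fin (n + 1)), (a + n - des π).choose (n + 1) * (b + n - des (π⁻¹ * τ)).choose (n + 1) =
      (a * b + n - des τ).choose (n + 1) := by
  have := sort_card' (Fin b ×ₗ Fin a) τ
  rw [Fintype.card_lex, Fintype.card_prod, Fintype.card_fin, Fintype.card_fin, mul_comm b] at this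
  rw [← this]
  have e : (univ.filter (fun h : Fin (n + 1) → Fin b ×ₗ Fin a => Tuple.sort h = τ)).card =
      (univ.filter (fun x : (Fin (n + 1) → Fin a) × (Fin (n + 1) → Fin b) =>
        Tuple.sort x.1 * Tuple.sort x.2 = τ)).card := by
    symm
    refine card_bij' (fun x _ => fun i => toLex (x.2 ((Tuple.sort x.1).symm i), x.1 i))
      (fun h _ => (fun i => (ofLex (h i)).2, fun i => (ofLex (h (Tuple.sort (fun i => (ofLex (h i)).2) i))).1))
      ?_ ?_ (fun f _ => by ext <;> simp) (fun f _ => by funext i; simp)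
    · intro x hx
      exact mem_filter.2 ⟨mem_univ _, by rw [radix, (mem_filter.1 hx).2]⟩
    · intro h hh
      refine mem_filter.2 ⟨mem_univ _, ?_⟩
      rw [← radix, ← (mem_filter.1 hh).2]
      simp
  rw [e, card_filter, Fintype.sum_prod_type]
  simp only [← sort_card, card_filter, sum_mul]
  rw [sum_comm]
  refine sum_congr rfl fun f _ => ?_
  simp only [ite_mul, one_mul, zero_mul, sum_ite_eq, mem_univ, if_true]
  exact sum_congr rfl fun g _ => if_congr eq_inv_mul_iff_mul_eq rfl rfl

end Pool.Agent.H.MP_436b38_co
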