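import Pool.Agent.H.MP_436b38_co.A

set_option autoImplicit false

namespace Pool.Agent.H.MP_436b38_co

open Finset

section
variable {A : Type*} [CommRing A] [Algebra ℚ A]

def Leib (θ : A →ₗ[ℚ] A) : Prop := ∀ x y, θ (x * y) = x * θ y + y * θ x

lemma Leib.one {θ : A →ₗ[ℚ] A} (h : Leib θ) : θ 1 = 0 := by
  have := h 1 1
  simpa using this

lemma Leib.pw {θ : A →ₗ[ℚ] A} (h : Leib θ) (x : A) (n : ℕ) : θ (x ^ (n + 1)) = (n + 1) * x ^ n * θ x := by
  induction n with
  | zero => simp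
  | succ n ih => rw [pow_succ, h, ih]; push_cast; ring

lemma Leib.nat {θ : A →ₗ[ℚ] A} (h : Leib θ) (n : ℕ) : θ (n : A) = 0 := by
  rw [← nsmul_one, map_nsmul, h.one, smul_zero]

def Bs (s t : A) (i j l : ℕ) : A := (s * t) ^ i * (s + t) ^ j * (1 + s * t) ^ l

def TT (θ : A →ₗ[ℚ] A) (x : A) (N : ℕ) (F : A) : A := (1 - x) * θ F + N * x * F

def op (θs θt : A →ₗ[ℚ] A) (s t : A) (N : ℕ) (c : ℤ) (F : A) : A :=
  TT θs s N (TT θt t N F) + c * ((1 - s) * (1 - t) * F)

variable {θs θt : A →ₗ[ℚ] A} {s t u v : A}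

lemma op_add (N : ℕ) (c : ℤ) (F G : A) :
    op θs θt s t N c (F + G) = op θs θt s t N c F + op θs θt s t N c G := by
  have : TT θt t N (F + G) = TT θt t N F + TT θt t N G := by simp only [TT, map_add]; ring
  rw [op, op, op, this]
  simp only [TT, map_add]; ring

lemma op_smul (N : ℕ) (c : ℤ) (r : ℚ) (F : A) : op θs θt s t N c (r • F) = r • op θs θt s t N c F := by
  have : TT θt t N (r • F) = r • TT θt t N F := by simp only [TT, map_smul, smul_add, mul_smul_comm]
  rw [op, op, this]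
  generalize TT θt t N F = G
  simp only [TT, map_smul, smul_add, mul_smul_comm]

lemma TT_eq {θ : A →ₗ[ℚ] A} (h : Leib θ) {x y z : A} (hx : θ x = x) (hy : y * (1 - x) = 1) (hz : θ z = 0)
    (N : ℕ) (F : A) : θ (F * y ^ (N + 1) * z) = TT θ x (N + 1) F * y ^ (N + 2) * z := by
  have e : θ y = x * y ^ 2 := by
    have := h y (1 - x)
    rw [hy, h.one, map_sub, h.one, hx] at this
    linear_combination (-y) * this - θ y * hy
  rw [h, h, h.pw, hz, e, TT]
  push_cast
  linear_combination (-z * y ^ (N + 1) * θ F) * hy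

lemma inv_zero {θ : A →ₗ[ℚ] A} (h : Leib θ) {x y : A} (hx : θ x = 0) (hy : y * (1 - x) = 1) (N : ℕ) :
    θ (y ^ (N + 1)) = 0 := by
  have e : θ y = 0 := by
    have := h y (1 - x)
    rw [hy, h.one, map_sub, h.one, hx] at this
    linear_combination (-y) * this - θ y * hy
  rw [h.pw, e, mul_zero]

lemma op_eq (hs : Leib θs) (ht : Leib θt) (h1 : θs s = s) (h2 : θs t = 0) (h3 : θt t = t) (h4 : θt s = 0)
    (hu : u * (1 - s) = 1) (hv : v * (1 - t) = 1) (N : ℕ) (c : ℤ) (F : A) :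
    θs (θt (F * (u * v) ^ (N + 1))) + c * (F * (u * v) ^ (N + 1)) =
      op θs θt s t (N + 1) c F * (u * v) ^ (N + 2) := by
  rw [mul_pow, mul_comm (u ^ _), ← mul_assoc, TT_eq ht h3 hv (inv_zero ht h4 hu N), mul_right_comm,
    TT_eq hs h1 hu (inv_zero hs h2 hv (N + 1)), op]
  linear_combination (-c * F * u ^ (N + 1) * v ^ (N + 1)) * hu - (c * F * u ^ (N + 2) * v ^ (N + 1) * (1 - s)) * hv

lemma op_B (hs : Leib θs) (ht : Leib θt) (h1 : θs s = s) (h2 : θs t = 0) (h3 : θt t = t) (h4 : θt s = 0)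
    (i j l : ℕ) (c : ℤ) : op θs θt s t (2 * (i + 1) + j + l) c (Bs s t (i + 1) j l) =
      (((i + 1) * (i + 1 + j) + c : ℤ) : A) * Bs s t (i + 1) j (l + 1) +
      (((i + 1) * (i + 1 + l) - c : ℤ) : A) * Bs s t (i + 1) (j + 1) l +
      ((j * (j - 1) : ℤ) : A) * Bs s t (i + 2) (j - 2) (l + 1) +
      ((j * (4 * i + j + 2 * l + 5) : ℤ) : A) * Bs s t (i + 2) (j - 1) l +
      ((l * (4 * i + 2 * j + l + 5) : ℤ) : A) * Bs s t (i + 2) j (l - 1) +
      ((l * (l - 1) : ℤ) : A) * Bs s t (i + 2) (j + 1) (l - 2) := by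
  have a1 := hs.one
  have a2 := ht.one
  have a3 : θs 2 = 0 := by simpa using hs.nat 2
  have b1 : ∀ n : ℕ, θs ((s * t) ^ n) = n * (s * t) ^ n := fun n => by
    cases n with
    | zero => simp [a1]
    | succ n => rw [hs.pw, hs, h1, h2]; push_cast; ring
  have b2 : ∀ n : ℕ, θt ((s * t) ^ n) = n * (s * t) ^ n := fun n => by
    cases n with
    | zero => simp [a2]
    | succ n => rw [ht.pw, ht, h3, h4]; push_cast; ring
  have c1 : ∀ n : ℕ, θs ((s + t) ^ (n + 1)) = (n + 1) * (s + t) ^ n * s := fun n => by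
    rw [hs.pw, map_add, h1, h2, add_zero]
  have c2 : ∀ n : ℕ, θt ((s + t) ^ (n + 1)) = (n + 1) * (s + t) ^ n * t := fun n => by
    rw [ht.pw, map_add, h3, h4, zero_add]
  have d1 : ∀ n : ℕ, θs ((1 + s * t) ^ (n + 1)) = (n + 1) * (1 + s * t) ^ n * (s * t) := fun n => by
    rw [hs.pw, map_add, a1, hs, h1, h2]; ring
  have d2 : ∀ n : ℕ, θt ((1 + s * t) ^ (n + 1)) = (n + 1) * (1 + s * t) ^ n * (s * t) := fun n => by
    rw [ht.pw, map_add, a2, ht, h3, h4]; ring
  rcases j with _ | _ | j <;> rcases l with _ | _ | l <;>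
  · simp only [op, TT, Bs, pow_zero, zero_add, pow_one, mul_one, ht _ _, b1, b2, c1, c2, d1, d2, map_add, h3, h4,
      a2, map_sub, hs _ _, h1, h2, a1, a3, hs.nat, Nat.add_sub_cancel, mul_zero, add_zero, sub_zero,
      show ∀ k : ℕ, k + 1 + 1 - 2 = k from fun _ => rfl, Int.cast_add, Int.cast_mul, Int.cast_sub,
      Int.cast_natCast, Int.cast_one, Int.cast_ofNat, Nat.cast_add, Nat.cast_mul, Nat.cast_one, Nat.cast_ofNat,
      Nat.cast_zero, Int.cast_zero, zero_mul]
    ring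

def cone (s t : A) (N a b : ℕ) : AddSubmonoid A := AddSubmonoid.closure
  {x | ∃ (r : ℚ) (i j l : ℕ), 0 ≤ r ∧ 2 * (i + 1) + j + l = N ∧ a ≤ (i + 1) * (i + 1 + j) ∧
    b ≤ (i + 1) * (i + 1 + l) ∧ x = r • Bs s t (i + 1) j l}

lemma mem_cone {N a b i j l : ℕ} {r : ℚ} {m : ℤ} (hr : 0 ≤ r) (hm : 0 ≤ m) (h : m ≠ 0 →
    2 * (i + 1) + j + l = N ∧ a ≤ (i + 1) * (i + 1 + j) ∧ b ≤ (i + 1) * (i + 1 + l)) :
    r • ((m : A) * Bs s t (i + 1) j l) ∈ cone s t N a b := by
  by_cases g : m = 0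
  · simp [g]
  · refine AddSubmonoid.subset_closure ⟨r * m, i, j, l, by positivity, (h g).1, (h g).2.1, (h g).2.2, ?_⟩
    rw [mul_smul, Int.cast_smul_eq_zsmul, zsmul_eq_mul]

lemma op_cone (hs : Leib θs) (ht : Leib θt) (h1 : θs s = s) (h2 : θs t = 0) (h3 : θt t = t) (h4 : θt s = 0)
    {N a b a' b' : ℕ} {c : ℤ} (g1 : 0 ≤ a + c) (g2 : 0 ≤ b - c) (g3 : a' ≤ a + 1) (g4 : b' ≤ b + 1)
    (g5 : a' ≤ a ∨ c = -a) (g6 : b' ≤ b ∨ c = b) {F : A} (hF : F ∈ cone s t N a b) :
    op θs θt s t N c F ∈ cone s t (N + 1) a' b' := by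
  induction hF using AddSubmonoid.closure_induction with
  | zero =>
    have := op_smul (θs := θs) (θt := θt) (s := s) (t := t) N c 0 0
    rw [zero_smul, zero_smul] at this
    rw [this]; exact zero_mem _
  | add x y _ _ hx hy => rw [op_add]; exact add_mem hx hy
  | mem x hx =>
    obtain ⟨r, i, j, l, hr, rfl, ha, hb, rfl⟩ := hx
    rw [op_smul, op_B hs ht h1 h2 h3 h4]
    simp only [smul_add]
    have ha' : (a : ℤ) ≤ (i + 1) * (i + 1 + j) := by exact_mod_cast ha
    have hb' : (b : ℤ) ≤ (i + 1) * (i + 1 + l) := by exact_mod_cast hb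
    refine add_mem (add_mem (add_mem (add_mem (add_mem (mem_cone hr (by omega) fun g => ⟨by omega, ?_, ?_⟩)
      (mem_cone hr (by omega) fun g => ⟨by omega, ?_, ?_⟩)) (mem_cone hr ?_ fun g => ?_))
      (mem_cone hr (by positivity) fun g => ?_)) (mem_cone hr (by positivity) fun g => ?_))
      (mem_cone hr ?_ fun g => ?_)
    · zify; omega
    · nlinarith
    · nlinarith
    · zify; omega
    · rcases j with _ | j <;> simp
    · rcases j with _ | _ | j
      · simp at g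
      · simp at g
      · rw [show j + 1 + 1 - 2 = j by omega]
        exact ⟨by omega, by nlinarith, by nlinarith⟩
    · rcases j with _ | j
      · simp at g
      · rw [Nat.add_sub_cancel]
        exact ⟨by omega, by nlinarith, by nlinarith⟩
    · rcases l with _ | l
      · simp at g
      · rw [Nat.add_sub_cancel]
        exact ⟨by omega, by nlinarith, by nlinarith⟩
    · rcases l with _ | l <;> simp
    · rcases l with _ | _ | l
      · simp at g
      · simp at g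
      · rw [show l + 1 + 1 - 2 = l by omega]
        exact ⟨by omega, by nlinarith, by nlinarith⟩

lemma cone_smul {N a b : ℕ} {r : ℚ} (hr : 0 ≤ r) {F : A} (hF : F ∈ cone s t N a b) :
    r • F ∈ cone s t N a b := by
  induction hF using AddSubmonoid.closure_induction with
  | zero => simp
  | add x y _ _ hx hy => rw [smul_add]; exact add_mem hx hy
  | mem x hx =>
    obtain ⟨r', i, j, l, hr', h1, ha, hb, rfl⟩ := hx
    exact AddSubmonoid.subset_closure ⟨r * r', i, j, l, by positivity, h1, ha, hb, smul_smul _ _ _⟩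

lemma cone_coef {N a b : ℕ} {F : A} (hF : F ∈ cone s t N a b) : ∃ γ : ℕ → ℕ → ℚ, (∀ i j, 0 ≤ γ i j) ∧
    F = ∑ i ∈ range (N + 1), ∑ j ∈ range (N + 1 - 2 * i), γ i j • Bs s t i j (N - j - 2 * i) := by
  induction hF using AddSubmonoid.closure_induction with
  | zero => exact ⟨fun _ _ => 0, fun _ _ => le_rfl, by simp⟩
  | add x y _ _ hx hy =>
    obtain ⟨γ, h1, rfl⟩ := hx
    obtain ⟨δ, h2, rfl⟩ := hy
    exact ⟨fun i j => γ i j + δ i j, fun i j => add_nonneg (h1 i j) (h2 i j), by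
      simp only [add_smul, sum_add_distrib]⟩
  | mem x hx =>
    obtain ⟨r, i, j, l, hr, rfl, _, _, rfl⟩ := hx
    refine ⟨fun i' j' => if i' = i + 1 ∧ j' = j then r else 0, fun i' j' => by positivity, ?_⟩
    rw [sum_eq_single_of_mem (i + 1) (mem_range.2 (by omega)) (fun i' _ g => by simp [g]),
      sum_eq_single_of_mem j (mem_range.2 (by omega)) (fun j' _ g => by simp [g])]
    simp only [and_self, if_true]
    congr 2
    omega

end

end Pool.Agent.H.MP_436b38_co
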