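import Pool.Agent.H.MP_436b38_co.B

set_option autoImplicit false

namespace Pool.Agent.H.MP_436b38_co

open Finset PowerSeries Equiv

noncomputable def th (R : Type*) [CommRing R] [Algebra ℚ R] : R⟦X⟧ →ₗ[ℚ] R⟦X⟧ where
  toFun f := PowerSeries.mk fun n => n • coeff n f
  map_add' f g := by ext n; simp
  map_smul' r f := by ext n; simp

lemma co_th {R : Type*} [CommRing R] [Algebra ℚ R] (f : R⟦X⟧) (n : ℕ) : coeff n (th R f) = n • coeff n f := by
  simp only [th, LinearMap.coe_mk, AddHom.coe_mk, coeff_mk]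

lemma th_leib (R : Type*) [CommRing R] [Algebra ℚ R] : Leib (th R) := fun f g => by
  ext n
  rw [mul_comm g, map_add, co_th, coeff_mul, coeff_mul, coeff_mul, smul_sum, ← sum_add_distrib]
  refine sum_congr rfl fun p hp => ?_
  rw [co_th, co_th, ← mem_antidiagonal.1 hp]
  simp only [nsmul_eq_mul, Nat.cast_add]
  ring

lemma th_X (R : Type*) [CommRing R] [Algebra ℚ R] : th R X = X := by
  ext n
  rw [co_th, coeff_X]
  split_ifs with h <;> simp [h]

lemma th_C (R : Type*) [CommRing R] [Algebra ℚ R] (r : R) : th R (C r) = 0 := by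
  ext n
  rw [co_th, coeff_C]
  split_ifs with h <;> simp [h]

abbrev AA := (ℚ⟦X⟧)⟦X⟧

noncomputable def ts : AA →ₗ[ℚ] AA where
  toFun f := PowerSeries.mk fun b => th ℚ (coeff b f)
  map_add' f g := by refine PowerSeries.ext fun n => ?_; simp
  map_smul' r f := by refine PowerSeries.ext fun n => ?_; simp

lemma co_ts (f : AA) (n : ℕ) : coeff n (ts f) = th ℚ (coeff n f) := by
  simp only [ts, LinearMap.coe_mk, AddHom.coe_mk, coeff_mk]

lemma ts_leib : Leib ts := fun f g => by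
  refine PowerSeries.ext fun n => ?_
  rw [mul_comm g, map_add, co_ts, coeff_mul, coeff_mul, coeff_mul, map_sum, ← sum_add_distrib]
  refine sum_congr rfl fun p _ => ?_
  rw [co_ts, co_ts, th_leib]
  ring

lemma ts_s : ts (C X) = C X := by
  refine PowerSeries.ext fun n => ?_
  rw [co_ts, coeff_C]
  split_ifs
  · exact th_X _
  · exact map_zero _

lemma ts_t : ts X = 0 := by
  refine PowerSeries.ext fun n => ?_
  rw [co_ts, coeff_X]
  split_ifs
  · exact (th_leib ℚ).one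
  · exact map_zero _

noncomputable def GG (n k : ℕ) : AA := PowerSeries.mk fun b => PowerSeries.mk fun a => ((a * b + n - k).choose n : ℚ)

noncomputable def ww : AA := C (PowerSeries.mk 1) * PowerSeries.mk 1

lemma hu : (C (PowerSeries.mk 1) : AA) * (1 - C X) = 1 := by
  rw [← map_one C, ← map_sub, ← map_mul, mk_one_mul_one_sub_eq_one]

lemma hv : (PowerSeries.mk 1 : AA) * (1 - X) = 1 := mk_one_mul_one_sub_eq_one _

lemma step {n k k' a b a' b' : ℕ} {c : ℤ} (g1 : 0 ≤ a + c) (g2 : 0 ≤ b - c) (g3 : a' ≤ a + 1) (g4 : b' ≤ b + 1)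
    (g5 : a' ≤ a ∨ c = -a) (g6 : b' ≤ b ∨ c = b)
    (h : ∀ m : ℕ, ((n + 1 : ℕ) : ℚ) * ((m + (n + 1) - k').choose (n + 1) : ℚ) = (m + c) * ((m + n - k).choose n : ℚ))
    (hF : ∃ F ∈ cone (C X : AA) X (n + 1) a b, GG n k = F * ww ^ (n + 1)) :
    ∃ F ∈ cone (C X : AA) X (n + 2) a' b', GG (n + 1) k' = F * ww ^ (n + 2) := by
  obtain ⟨F, h1, h2⟩ := hF
  refine ⟨((n + 1 : ℕ) : ℚ)⁻¹ • op ts (th _) (C X) X (n + 1) c F, cone_smul (by positivity)
    (op_cone ts_leib (th_leib _) ts_s ts_t (th_X _) (th_C _ _) g1 g2 g3 g4 g5 g6 h1), ?_⟩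
  rw [smul_mul_assoc, ww, ← op_eq ts_leib (th_leib _) ts_s ts_t (th_X _) (th_C _ _) hu hv, ← ww, ← h2,
    eq_inv_smul_iff₀ (by positivity)]
  refine PowerSeries.ext fun y => PowerSeries.ext fun x => ?_
  rw [← zsmul_eq_mul]
  simp only [GG, map_add, co_ts, co_th, map_nsmul, map_zsmul, coeff_mk, LinearMap.map_smul_of_tower]
  simp only [smul_eq_mul, nsmul_eq_mul, zsmul_eq_mul]
  rw [h]
  push_cast
  ring

lemma co_w (n x y a b : ℕ) (hx : x ≤ n) (hy : y ≤ n) (hn : 0 < n) :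
    coeff a (coeff b ((C X : AA) ^ x * X ^ y * ww ^ (n + 1))) =
      (((a + n - x).choose n * (b + n - y).choose n : ℕ) : ℚ) := by
  have e : ∀ (R : Type) [CommRing R] (x a : ℕ), x ≤ n → coeff a ((X : R⟦X⟧) ^ x * (PowerSeries.mk 1 : R⟦X⟧) ^ (n + 1)) =
      (((a + n - x).choose n : ℕ) : R) := by
    intro R _ x a hx
    rw [coeff_X_pow_mul', mk_one_pow_eq_mk_choose_add, coeff_mk]
    split_ifs with h
    · congr 2; omega
    · rw [Nat.choose_eq_zero_of_lt (by omega), Nat.cast_zero]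
  have : (C X : AA) ^ x * X ^ y * ww ^ (n + 1) = C (X ^ x * PowerSeries.mk 1 ^ (n + 1)) * (X ^ y * PowerSeries.mk 1 ^ (n + 1)) := by
    rw [ww, map_mul, map_pow, map_pow]; ring
  rw [this, coeff_C_mul, e _ y b hy, mul_comm, ← nsmul_eq_mul, map_nsmul, e _ x a hx, nsmul_eq_mul]
  push_cast
  ring

lemma diag (n : ℕ) : ∃ F ∈ cone (C X : AA) X (n + 2) (n + 1) 1, GG (n + 1) (n + 1) = F * ww ^ (n + 2) := by
  induction n with
  | zero =>
    refine ⟨(1 : ℚ) • Bs (C X) X 1 0 0, AddSubmonoid.subset_closure ⟨1, 0, 0, 0, by norm_num, rfl, le_rfl, le_rfl, rfl⟩, ?_⟩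
    refine PowerSeries.ext fun b => PowerSeries.ext fun a => ?_
    have := co_w 1 1 1 a b le_rfl le_rfl one_pos
    simp only [pow_one] at this
    simp only [one_smul, Bs, pow_one, pow_zero, mul_one, zero_add, this, GG, coeff_mk]
    simp
  | succ n ih =>
    refine step (c := -(n + 1 : ℕ)) (by omega) (by omega) le_rfl (by omega) (Or.inr rfl) (Or.inl le_rfl)
      (fun m => ?_) ih
    rw [Nat.add_sub_cancel, Nat.add_sub_cancel]
    rcases le_or_gt (n + 1) m with g | g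
    · have := congrArg (Nat.cast : ℕ → ℚ) (Nat.choose_succ_right_eq m (n + 1))
      push_cast [g] at this ⊢
      linear_combination this
    · rw [Nat.choose_eq_zero_of_lt g, Nat.choose_eq_zero_of_lt (by omega)]; simp

lemma allk (d n : ℕ) (h : d ≤ n) :
    ∃ F ∈ cone (C X : AA) X (n + 2) (d + 1) (n + 1 - d), GG (n + 1) (d + 1) = F * ww ^ (n + 2) := by
  induction n, h using Nat.le_induction with
  | base => rw [show d + 1 - d = 1 by omega]; exact diag d
  | succ n h ih =>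
    refine step (c := (n + 1 - d : ℕ)) (by omega) (by omega) (by omega) (by omega) (Or.inl le_rfl) (Or.inr rfl)
      (fun m => ?_) ih
    have := congrArg (Nat.cast : ℕ → ℚ) (Nat.add_one_mul_choose_eq (m + (n + 1) - (d + 1)) (n + 1))
    rw [show m + (n + 1 + 1) - (d + 1) = m + (n + 1) - (d + 1) + 1 by omega]
    push_cast [show d + 1 ≤ m + (n + 1) by omega, show d ≤ n + 1 by omega] at this ⊢
    linear_combination -this

noncomputable def FF {n : ℕ} (τ : Perm (Fin n)) : AA :=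
  ∑ π : Perm (Fin n), (C X : AA) ^ (des π + 1) * X ^ (des (π⁻¹ * τ) + 1)

lemma FF_w {n : ℕ} (τ : Perm (Fin (n + 1))) : FF τ * ww ^ (n + 2) = GG (n + 1) (des τ + 1) := by
  refine PowerSeries.ext fun b => PowerSeries.ext fun a => ?_
  rw [FF, sum_mul, map_sum, map_sum, GG, coeff_mk, coeff_mk,
    show a * b + (n + 1) - (des τ + 1) = a * b + n - des τ by omega, ← shuffle, Nat.cast_sum]
  refine sum_congr rfl fun π _ => ?_
  rw [co_w _ _ _ _ _ (by have := des_le π; omega) (by have := des_le (π⁻¹ * τ); omega) (by omega)]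
  congr 3 <;> omega

lemma FF_eq {n d : ℕ} (h : d ≤ n) : ∃ F ∈ cone (C X : AA) X (n + 2) (d + 1) (n + 1 - d),
    ∀ τ : Perm (Fin (n + 1)), des τ = d → FF τ = F := by
  obtain ⟨F, h1, h2⟩ := allk d n h
  refine ⟨F, h1, fun τ e => ?_⟩
  have e1 := FF_w τ
  rw [e, h2] at e1
  have e2 : ww * ((1 - C X) * (1 - X)) = 1 := by rw [ww, mul_mul_mul_comm, hu, hv, one_mul]
  have := congrArg (· * ((1 - C X) * (1 - X)) ^ (n + 2)) e1
  simpa only [mul_assoc, ← mul_pow, e2, one_pow, mul_one] using this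

def ZZ : Subring AA where
  carrier := {f | ∀ a b, coeff a (coeff b f) ∈ (⊥ : Subring ℚ)}
  mul_mem' hf hg a b := by
    rw [coeff_mul, map_sum]
    refine sum_mem fun p _ => ?_
    rw [coeff_mul]
    exact sum_mem fun q _ => mul_mem (hf _ _) (hg _ _)
  one_mem' a b := by
    rw [coeff_one]
    split_ifs
    · rw [coeff_one]; split_ifs; exacts [one_mem _, zero_mem _]
    · exact zero_mem _
  add_mem' hf hg a b := by rw [map_add, map_add]; exact add_mem (hf _ _) (hg _ _)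
  zero_mem' a b := zero_mem _
  neg_mem' hf a b := by rw [map_neg, map_neg]; exact neg_mem (hf _ _)

lemma s_ZZ : (C X : AA) ∈ ZZ := fun a b => by
  rw [coeff_C]
  split_ifs
  · rw [coeff_X]; split_ifs; exacts [one_mem _, zero_mem _]
  · exact zero_mem _

lemma t_ZZ : (X : AA) ∈ ZZ := fun a b => by
  rw [coeff_X]
  split_ifs
  · rw [coeff_one]; split_ifs; exacts [one_mem _, zero_mem _]
  · exact zero_mem _

lemma B_ZZ (i j l : ℕ) : Bs (C X : AA) X i j l ∈ ZZ :=
  mul_mem (mul_mem (pow_mem (mul_mem s_ZZ t_ZZ) _) (pow_mem (add_mem s_ZZ t_ZZ) _))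
    (pow_mem (add_mem (one_mem _) (mul_mem s_ZZ t_ZZ)) _)

lemma B_co (i j l b : ℕ) (h : b ≤ i) :
    coeff b (Bs (C X : AA) X i j l) = if b = i then X ^ (i + j) else 0 := by
  have : Bs (C X : AA) X i j l = X ^ i * (C X ^ i * (C X + X) ^ j * (1 + C X * X) ^ l) := by
    rw [Bs]; ring
  rw [this, coeff_X_pow_mul']
  split_ifs with g1 g2 g2
  · rw [g2, Nat.sub_self, coeff_zero_eq_constantCoeff]
    simp [pow_add]
  · omega
  · omega
  · rfl

lemma integral {N : ℕ} {γ : ℕ → ℕ → ℚ}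
    (h : ∑ i ∈ range (N + 1), ∑ j ∈ range (N + 1 - 2 * i), γ i j • Bs (C X : AA) X i j (N - j - 2 * i) ∈ ZZ) :
    ∀ i j, j < N + 1 - 2 * i → γ i j ∈ (⊥ : Subring ℚ) := by
  intro i
  induction i using Nat.strong_induction_on with
  | _ i ih =>
    intro j hj
    have e := h (i + j) i
    rw [← sum_range_add_sum_Ico _ (show i ≤ N + 1 by omega), sum_eq_sum_Ico_succ_bot (by omega)] at e
    simp only [map_add, map_sum, LinearMap.map_smul_of_tower, smul_eq_mul] at e
    rw [sum_eq_zero (s := Ico _ _) (fun i' hi => sum_eq_zero fun j' _ => by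
      rw [mem_Ico] at hi
      rw [B_co _ _ _ _ (by omega), if_neg (by omega), map_zero, mul_zero]), add_zero,
      sum_eq_single_of_mem j (mem_range.2 hj) (fun j' _ g => by
        rw [B_co _ _ _ _ le_rfl, if_pos rfl, coeff_X_pow, if_neg (by omega), mul_zero]),
      B_co _ _ _ _ le_rfl, if_pos rfl, coeff_X_pow, if_pos rfl, mul_one] at e
    exact (add_mem_cancel_left (sum_mem fun i' hi => sum_mem fun j' hj =>
      mul_mem (ih i' (mem_range.1 hi) j' (mem_range.1 hj)) (B_ZZ _ _ _ _ _))).1 e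

noncomputable def ph : Polynomial (Polynomial ℚ) →+* AA :=
  Polynomial.coeToPowerSeries.ringHom.comp (Polynomial.mapRingHom Polynomial.coeToPowerSeries.ringHom)

lemma ph_inj : Function.Injective ph :=
  (Polynomial.coe_injective _).comp (Polynomial.map_injective _ (Polynomial.coe_injective _))

lemma ph_s : ph (Polynomial.C Polynomial.X) = C X := by simp [ph]
lemma ph_t : ph Polynomial.X = X := by simp [ph]

theorem main (n d : ℕ) : ∃ Γ : ℕ → ℕ → ℕ, ∀ τ : Perm (Fin (n + 1)), des τ = d → ∀ s t : ℤ,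
    ∑ π : Perm (Fin (n + 1)), s ^ (des π + 1) * t ^ (des (π⁻¹ * τ) + 1) =
    ∑ i ∈ range (n + 1 + 2), ∑ j ∈ range (n + 1 + 2 - 2 * i),
      (Γ i j : ℤ) * (s * t) ^ i * (s + t) ^ j * (1 + s * t) ^ (n + 1 + 1 - j - 2 * i) := by
  by_cases g : ∃ τ : Perm (Fin (n + 1)), des τ = d
  swap
  · exact ⟨fun _ _ => 0, fun τ h => absurd ⟨τ, h⟩ g⟩
  obtain ⟨τ0, h0⟩ := g
  obtain ⟨F, h1, h2⟩ := FF_eq (h0 ▸ des_le τ0 : d ≤ n)
  obtain ⟨γ, h3, rfl⟩ := cone_coef h1
  have h4 := integral (N := n + 2) (γ := γ) (by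
    rw [← h2 τ0 h0]
    exact sum_mem fun π _ => mul_mem (pow_mem s_ZZ _) (pow_mem t_ZZ _))
  have h5 : ∀ i j, ∃ m : ℕ, j < n + 2 + 1 - 2 * i → γ i j = m := fun i j => by
    by_cases hj : j < n + 2 + 1 - 2 * i
    · obtain ⟨z, hz⟩ := Subring.mem_bot.1 (h4 i j hj)
      have := h3 i j
      rw [← hz] at this
      lift z to ℕ using by exact_mod_cast this
      exact ⟨z, fun _ => by rw [← hz]; simp⟩
    · exact ⟨0, fun g => absurd g hj⟩
  choose Γ hΓ using h5
  refine ⟨Γ, fun τ e s t => ?_⟩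
  have e1 : ∑ π : Perm (Fin (n + 1)), (Polynomial.C Polynomial.X : Polynomial (Polynomial ℚ)) ^ (des π + 1) *
      Polynomial.X ^ (des (π⁻¹ * τ) + 1) = ∑ i ∈ range (n + 1 + 2), ∑ j ∈ range (n + 1 + 2 - 2 * i),
      (Γ i j : Polynomial (Polynomial ℚ)) * (Polynomial.C Polynomial.X * Polynomial.X) ^ i *
      (Polynomial.C Polynomial.X + Polynomial.X) ^ j *
      (1 + Polynomial.C Polynomial.X * Polynomial.X) ^ (n + 1 + 1 - j - 2 * i) := by
    refine ph_inj ?_
    simp only [map_sum, map_mul, map_pow, map_add, map_one, map_natCast, ph_s, ph_t]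
    refine (h2 τ e).trans (sum_congr rfl fun i _ => sum_congr rfl fun j hj => ?_)
    rw [hΓ i j (mem_range.1 hj), Nat.cast_smul_eq_nsmul, nsmul_eq_mul, Bs]
    ring
  have e2 := congrArg (Polynomial.evalEvalRingHom (s : ℚ) (t : ℚ)) e1
  simp only [map_sum, map_mul, map_pow, map_add, map_one, map_natCast, Polynomial.coe_evalEvalRingHom,
    Polynomial.evalEval_X, Polynomial.evalEval_C, Polynomial.eval_X] at e2
  exact_mod_cast e2

end Pool.Agent.H.MP_436b38_co
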